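import Pool.Agent.Helper57.QZ.Stmts

set_option autoImplicit false

namespace Pool.Agent.Helper81.QZ

open MeasureTheory Set Filter Topology Pool.Agent.Helper57.QZ

lemma cn_prime {y : ℕ} (p : Pr y) : 2 ≤ (p : ℕ) :=
  (Nat.mem_primesBelow.1 p.2).2.two_le

lemma cn_aa_lt {y : ℕ} (p : Pr y) {σ : ℝ} (h : 0 < σ) : aa σ p < 1 := by
  unfold aa
  have h2 : (1 : ℝ) < ((p : ℕ) : ℝ) := by exact_mod_cast cn_prime p
  exact Real.rpow_lt_one_of_one_lt_of_neg h2 (by linarith)

lemma cn_aa_pos {y : ℕ} (p : Pr y) (σ : ℝ) : 0 < aa σ p := by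
  unfold aa
  have h2 : (0 : ℝ) < ((p : ℕ) : ℝ) := by
    have := cn_prime p
    exact_mod_cast (by omega : 0 < (p : ℕ))
  exact Real.rpow_pos_of_pos h2 _

lemma cn_exp (x : ℝ) : ‖Complex.exp (-((x : ℂ) * Complex.I))‖ = 1 := by
  have h : (-((x : ℂ) * Complex.I)) = (((-x : ℝ) : ℂ)) * Complex.I := by push_cast; ring
  rw [h, Complex.norm_exp_ofReal_mul_I]

lemma cn_ne {y : ℕ} (p : Pr y) {σ : ℝ} (h : 0 < σ) (x : ℝ) :
    (1 - Complex.exp (-((x : ℂ) * Complex.I)) * (aa σ p : ℂ)) ≠ 0 := by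
  intro h0
  have h1 : (1 : ℂ) = Complex.exp (-((x : ℂ) * Complex.I)) * (aa σ p : ℂ) := sub_eq_zero.1 h0
  have h2 : ‖(1 : ℂ)‖ = ‖Complex.exp (-((x : ℂ) * Complex.I)) * (aa σ p : ℂ)‖ := by rw [← h1]
  rw [norm_mul, cn_exp, one_mul, norm_one, Complex.norm_real, Real.norm_of_nonneg
    (cn_aa_pos p σ).le] at h2
  have := cn_aa_lt p h
  linarith

lemma cn_aa_cont {y : ℕ} (p : Pr y) :
    Continuous (fun q : (Icc (1 / 2 : ℝ) 1) × (Pr y → ℝ) => ((aa (q.1 : ℝ) p : ℝ) : ℂ)) := by
  apply Complex.continuous_ofReal.comp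
  unfold aa
  have h2 : ((p : ℕ) : ℝ) ≠ 0 := by
    have := cn_prime p
    exact_mod_cast (by omega : (p : ℕ) ≠ 0)
  apply Continuous.rpow continuous_const
  · exact (continuous_subtype_val.comp continuous_fst).neg
  · intro x
    exact Or.inl h2

lemma cn_exp_cont {y : ℕ} (p : Pr y) :
    Continuous (fun q : (Icc (1 / 2 : ℝ) 1) × (Pr y → ℝ) =>
      Complex.exp (-((q.2 p : ℂ) * Complex.I))) := by
  apply Complex.continuous_exp.comp
  apply Continuous.neg
  apply Continuous.mul _ continuous_const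
  exact Complex.continuous_ofReal.comp ((continuous_apply p).comp continuous_snd)

lemma cn_upd {y : ℕ} (φ : Pr y → ℝ) (p r : Pr y) :
    Complex.exp (-(((Function.update φ p (φ p + 2 * Real.pi) r : ℝ) : ℂ) * Complex.I)) =
      Complex.exp (-((φ r : ℂ) * Complex.I)) := by
  by_cases h : r = p
  · subst h
    rw [Function.update_self]
    have h1 : (-(((φ r + 2 * Real.pi : ℝ) : ℂ) * Complex.I)) =
        -((φ r : ℂ) * Complex.I) - 2 * Real.pi * Complex.I := by push_cast; ring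
    rw [h1, Complex.exp_sub, Complex.exp_two_pi_mul_I, div_one]
  · rw [Function.update_of_ne h]

theorem st_CN : ST_CN := by
  intro y
  have hpos : ∀ s : Icc (1 / 2 : ℝ) 1, 0 < (s : ℝ) := fun s => by
    have := s.2.1
    linarith
  have hc : ∀ p : Pr y, Continuous (fun q : (Icc (1 / 2 : ℝ) 1) × (Pr y → ℝ) =>
      Complex.exp (-((q.2 p : ℂ) * Complex.I)) * ((aa (q.1 : ℝ) p : ℝ) : ℂ)) := fun p =>
    (cn_exp_cont p).mul (cn_aa_cont p)
  refine ⟨?_, ?_, ?_⟩
  · unfold Zy
    apply continuous_finsetProd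
    intro p _
    apply Continuous.inv₀ (continuous_const.sub (hc p))
    intro q
    exact cn_ne p (hpos q.1) _
  · unfold Wy
    apply Continuous.neg
    apply continuous_finsetSum
    intro p _
    apply Continuous.div (continuous_const.mul (hc p)) (continuous_const.sub (hc p))
    intro q
    exact cn_ne p (hpos q.1) _
  · intro σ φ p
    constructor
    · unfold Zy
      apply Finset.prod_congr rfl
      intro r _
      rw [cn_upd]
    · unfold Wy
      congr 1
      apply Finset.sum_congr rfl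
      intro r _
      rw [cn_upd]

end Pool.Agent.Helper81.QZ
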