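import Pool.Agent.Helper57.QZ.Stmts2

set_option autoImplicit false

namespace Pool.Agent.Helper81.QZ

open MeasureTheory Set Filter Topology Pool.Agent.Helper57.QZ

lemma tpa_const (y : ℕ) (c : ℂ) : TP y 0 ‖c‖ (fun _ => c) := by
  refine ⟨PUnit, inferInstance, fun _ _ => 0, fun _ => c, ?_, ?_, ?_⟩
  · intro _; simp
  · simp
  · intro φ; simp

lemma tpa_mono {y D D' : ℕ} {C C' : ℝ} {F : (Pr y → ℝ) → ℂ} (hD : D ≤ D') (hC : C ≤ C')
    (h1 : TP y D C F) : TP y D' C' F := by
  obtain ⟨ι, i1, n, c, a1, a2, a3⟩ := h1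
  exact ⟨ι, i1, n, c, fun j => (a1 j).trans (by exact_mod_cast hD), a2.trans hC, a3⟩

lemma tpa_sum_single (y : ℕ) (p : Pr y) (v : ℤ) (φ : Pr y → ℝ) :
    ∑ q, (((Pi.single p v : Pr y → ℤ) q : ℤ) : ℝ) * φ q = (v : ℝ) * φ p := by
  rw [Finset.sum_eq_single p]
  · rw [Pi.single_eq_same]
  · intro q _ hq
    rw [Pi.single_eq_of_ne hq]
    simp
  · intro h
    exact absurd (Finset.mem_univ p) h

lemma tpa_abs_single (y : ℕ) (p : Pr y) (v : ℤ) :
    ∑ q, |(Pi.single p v : Pr y → ℤ) q| = |v| := by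
  rw [Finset.sum_eq_single p]
  · rw [Pi.single_eq_same]
  · intro q _ hq
    rw [Pi.single_eq_of_ne hq]
    simp
  · intro h
    exact absurd (Finset.mem_univ p) h

lemma tpa_cos (y : ℕ) (p : Pr y) (α : ℝ) :
    TP y 1 1 (fun φ => ((Real.cos (φ p + α) : ℝ) : ℂ)) := by
  classical
  refine ⟨Bool, inferInstance,
    fun b => Pi.single p (if b then 1 else -1),
    fun b => Complex.exp (((if b then α else -α : ℝ) : ℂ) * Complex.I) / 2, ?_, ?_, ?_⟩
  · intro b
    rw [tpa_abs_single]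
    cases b <;> simp
  · rw [Fintype.sum_bool]
    simp only [norm_div, Complex.norm_exp_ofReal_mul_I]
    norm_num
  · intro φ
    rw [Fintype.sum_bool]
    simp only [tpa_sum_single]
    rw [Complex.ofReal_cos, Complex.cos]
    have e1 : Complex.exp (((φ p + α : ℝ) : ℂ) * Complex.I) =
        Complex.exp (((α : ℝ) : ℂ) * Complex.I) * Complex.exp (((φ p : ℝ) : ℂ) * Complex.I) := by
      rw [← Complex.exp_add]
      congr 1
      push_cast
      ring
    have e2 : Complex.exp (-((φ p + α : ℝ) : ℂ) * Complex.I) =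
        Complex.exp (((-α : ℝ) : ℂ) * Complex.I) *
          Complex.exp (((-φ p : ℝ) : ℂ) * Complex.I) := by
      rw [← Complex.exp_add]
      congr 1
      push_cast
      ring
    rw [e1, e2]
    simp only [if_true, Bool.false_eq_true, if_false, Int.cast_one, one_mul, Int.cast_neg,
      neg_mul]
    ring

lemma tpa_add {y D D' : ℕ} {C C' : ℝ} {F G : (Pr y → ℝ) → ℂ} (h1 : TP y D C F)
    (h2 : TP y D' C' G) : TP y (max D D') (C + C') (fun φ => F φ + G φ) := by
  obtain ⟨ι, i1, n, c, a1, a2, a3⟩ := h1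
  obtain ⟨κ, i2, m, d, b1, b2, b3⟩ := h2
  refine ⟨ι ⊕ κ, inferInstance, Sum.elim n m, Sum.elim c d, ?_, ?_, ?_⟩
  · rintro (j | j)
    · simp only [Sum.elim_inl]
      exact (a1 j).trans (by exact_mod_cast le_max_left D D')
    · simp only [Sum.elim_inr]
      exact (b1 j).trans (by exact_mod_cast le_max_right D D')
  · rw [Fintype.sum_sum_type]
    simp only [Sum.elim_inl, Sum.elim_inr]
    exact add_le_add a2 b2
  · intro φ
    show F φ + G φ = _
    rw [a3, b3, Fintype.sum_sum_type]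
    rfl

lemma tpa_mul {y D D' : ℕ} {C C' : ℝ} {F G : (Pr y → ℝ) → ℂ} (h1 : TP y D C F)
    (h2 : TP y D' C' G) : TP y (D + D') (C * C') (fun φ => F φ * G φ) := by
  obtain ⟨ι, i1, n, c, a1, a2, a3⟩ := h1
  obtain ⟨κ, i2, m, d, b1, b2, b3⟩ := h2
  refine ⟨ι × κ, inferInstance, fun j p => n j.1 p + m j.2 p, fun j => c j.1 * d j.2, ?_, ?_, ?_⟩
  · intro j
    calc ∑ p, |n j.1 p + m j.2 p| ≤ ∑ p, (|n j.1 p| + |m j.2 p|) :=
          Finset.sum_le_sum fun p _ => abs_add_le _ _
      _ = ∑ p, |n j.1 p| + ∑ p, |m j.2 p| := Finset.sum_add_distrib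
      _ ≤ (D : ℤ) + (D' : ℤ) := add_le_add (a1 _) (b1 _)
      _ = ((D + D' : ℕ) : ℤ) := by push_cast; ring
  · rw [Fintype.sum_prod_type]
    simp only [norm_mul]
    rw [← Finset.sum_mul_sum]
    apply mul_le_mul a2 b2 (Finset.sum_nonneg fun _ _ => norm_nonneg _)
    exact (Finset.sum_nonneg fun _ _ => norm_nonneg _).trans a2
  · intro φ
    show F φ * G φ = _
    rw [a3, b3, Fintype.sum_prod_type, Finset.sum_mul_sum]
    apply Finset.sum_congr rfl
    intro j _
    apply Finset.sum_congr rfl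
    intro k _
    have e : Complex.exp (((∑ p, ((n j p + m k p : ℤ) : ℝ) * φ p : ℝ) : ℂ) * Complex.I) =
        Complex.exp (((∑ p, (n j p : ℝ) * φ p : ℝ) : ℂ) * Complex.I) *
          Complex.exp (((∑ p, (m k p : ℝ) * φ p : ℝ) : ℂ) * Complex.I) := by
      rw [← Complex.exp_add, ← add_mul, ← Complex.ofReal_add, ← Finset.sum_add_distrib]
      congr 3
      apply Finset.sum_congr rfl
      intro p _
      push_cast
      ring
    rw [e]
    ring

theorem st_TPA : ST_TPA := by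
  intro y
  refine ⟨tpa_const y, tpa_cos y, fun D D' C C' F G h1 h2 => tpa_add h1 h2,
    fun D D' C C' F G h1 h2 => tpa_mul h1 h2, ?_, fun D D' C C' F hD hC h1 => tpa_mono hD hC h1⟩
  intro D C F h k
  induction k with
  | zero =>
    have h0 := tpa_const y 1
    rw [norm_one] at h0
    simpa using h0
  | succ k ih =>
    have h1 := tpa_mul ih h
    rw [Nat.succ_mul]
    simpa only [pow_succ] using h1

end Pool.Agent.Helper81.QZ
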